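import Pool.Agent.helper35.FGN.Spec

set_option autoImplicit false

namespace Pool.Agent.FGN

open Matrix Pool.Agent.H48SL Pool.Agent.UG Pool.Agent.LV

variable {n : ℕ}

theorem CYC_ne {v w : Fin n → ℤ} (h : Indep v w) : v ≠ 0 := by
  rintro rfl
  have h1 := h 1 0 (by simp)
  exact one_ne_zero h1.1

theorem CYC_minor {v w : Fin n → ℤ} (h : Indep v w) : ∃ i j : Fin n, v i * w j - v j * w i ≠ 0 := by
  by_contra hc
  push Not at hc
  have h2 : ∀ j, w j = 0 ∧ -v j = 0 := fun j => h (w j) (-v j) (by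
    funext i
    simp only [Pi.add_apply, Pi.smul_apply, smul_eq_mul, Pi.zero_apply]
    have := hc i j
    linear_combination this)
  exact CYC_ne h (funext fun j => by simpa using (h2 j).2)

theorem CYC_ratIndep {v w : Fin n → ℤ} (h : Indep v w) (a b : ℚ) (hab : a • castV v + b • castV w = 0) :
    a = 0 ∧ b = 0 := by
  obtain ⟨i, j, hij⟩ := CYC_minor h
  have hi := congrFun hab i
  have hj := congrFun hab j
  simp only [Pi.add_apply, Pi.smul_apply, smul_eq_mul, Pi.zero_apply, castV] at hi hj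
  have hm : ((v i : ℚ) * (w j : ℚ) - (v j : ℚ) * (w i : ℚ)) ≠ 0 := by exact_mod_cast hij
  constructor
  · have : a * ((v i : ℚ) * (w j : ℚ) - (v j : ℚ) * (w i : ℚ)) = 0 := by
      linear_combination (w j : ℚ) * hi - (w i : ℚ) * hj
    exact (mul_eq_zero.mp this).resolve_right hm
  · have : b * ((v i : ℚ) * (w j : ℚ) - (v j : ℚ) * (w i : ℚ)) = 0 := by
      linear_combination (v i : ℚ) * hj - (v j : ℚ) * hi
    exact (mul_eq_zero.mp this).resolve_right hm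

theorem CYC_castV_ne {v w : Fin n → ℤ} (h : Indep v w) : castV v ≠ 0 := by
  intro h0
  obtain ⟨h1, _⟩ := CYC_ratIndep h 1 0 (by rw [h0]; simp)
  exact one_ne_zero h1

theorem CYC_mul (a b c d : Fin n → ℚ) : vecMulVec a b * vecMulVec c d = (b ⬝ᵥ c) • vecMulVec a d := by
  ext i j
  rw [Matrix.mul_apply, Matrix.smul_apply, vecMulVec_apply, smul_eq_mul, dotProduct, Finset.sum_mul]
  refine Finset.sum_congr rfl fun k _ => ?_
  rw [vecMulVec_apply, vecMulVec_apply]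
  ring

theorem CYC_mul0 {a b c d : Fin n → ℚ} (h : b ⬝ᵥ c = 0) : vecMulVec a b * vecMulVec c d = 0 := by
  rw [CYC_mul, h, zero_smul]

theorem CYC_pow {z : SLZ n} {N : MQ n} (hN : N * N = 0) (hz : qg z = 1 + N) (k : ℕ) :
    qg (z ^ k) = 1 + (k : ℚ) • N := by
  induction k with
  | zero => simp [qg_one]
  | succ k ih =>
    rw [pow_succ, qg_mul, ih, hz, Matrix.add_mul, Matrix.mul_add, Matrix.mul_add, Matrix.smul_mul,
      Matrix.smul_mul, hN, smul_zero, mul_one, one_mul, Matrix.mul_one]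
    push_cast
    rw [add_smul, one_smul]
    abel

theorem CYC_zpow {z : SLZ n} {N : MQ n} (hN : N * N = 0) (hz : qg z = 1 + N) (m : ℤ) :
    qg (z ^ m) = 1 + (m : ℚ) • N := by
  obtain ⟨k, rfl | rfl⟩ := m.eq_nat_or_neg
  · rw [zpow_natCast, CYC_pow hN hz]
    push_cast
    rfl
  · rw [_root_.zpow_neg, zpow_natCast]
    have h1 := qg_inv_mul (z ^ k)
    rw [CYC_pow hN hz] at h1
    have h2 : (1 + (k : ℚ) • N) * (1 - (k : ℚ) • N) = 1 := by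
      have h4 : ((k : ℚ) • N) * ((k : ℚ) • N) = 0 := by
        rw [Matrix.smul_mul, Matrix.mul_smul, hN, smul_zero, smul_zero]
      rw [Matrix.add_mul, Matrix.mul_sub, Matrix.mul_sub, h4, one_mul, Matrix.mul_one, one_mul]
      abel
    have h3 : qg (z ^ k)⁻¹ = qg (z ^ k)⁻¹ * ((1 + (k : ℚ) • N) * (1 - (k : ℚ) • N)) := by
      rw [h2, Matrix.mul_one]
    rw [h3, ← Matrix.mul_assoc, h1, Matrix.one_mul]
    push_cast
    rw [neg_smul]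
    abel

theorem CYC_grp (H : Subgroup (SLZ n)) : IsGrp {A : MQ n | ∃ h ∈ H, A = qg h} := by
  refine ⟨⟨1, H.one_mem, qg_one.symm⟩, ?_, ?_⟩
  · rintro _ ⟨a, ha, rfl⟩ _ ⟨b, hb, rfl⟩
    exact ⟨a * b, H.mul_mem ha hb, (qg_mul a b).symm⟩
  · rintro _ ⟨a, ha, rfl⟩
    exact ⟨qg a⁻¹, ⟨a⁻¹, H.inv_mem ha, rfl⟩, qg_mul_inv a, qg_inv_mul a⟩

theorem CYC_sum (y f g : Fin n → ℚ) (r t : ℚ) (h : f ⬝ᵥ y = 0) :
    tx (vecMulVec y f) r * tx (vecMulVec y g) t = 1 + vecMulVec y (r • f + t • g) := by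
  unfold tx
  have h4 : (r • vecMulVec y f) * (t • vecMulVec y g) = 0 := by
    rw [Matrix.smul_mul, Matrix.mul_smul, CYC_mul0 h, smul_zero, smul_zero]
  rw [Matrix.add_mul, Matrix.mul_add, Matrix.mul_add, h4,
    Matrix.one_mul, Matrix.one_mul, Matrix.mul_one, vecMulVec_add, vecMulVec_smul, vecMulVec_smul]
  abel

theorem CYC_vmv {y f g : Fin n → ℚ} (hy : y ≠ 0) (h : vecMulVec y f = vecMulVec y g) : f = g := by
  obtain ⟨i, hi⟩ : ∃ i, y i ≠ 0 := by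
    by_contra hc
    push Not at hc
    exact hy (funext hc)
  funext j
  have h1 := congrFun (congrFun h i) j
  rw [vecMulVec_apply, vecMulVec_apply] at h1
  exact mul_left_cancel₀ hi h1

/-- the final step -/
theorem CYC_last (hFCQ : Pool.Agent.LV.FCQ_stmt) (hn : 3 ≤ n) (H : Subgroup (SLZ n)) (hH : ZDense H) (P Q Q' : Fin n → ℤ)
    (hP : castV P ≠ 0) (hQ : Indep Q Q') (h0 : Q ⬝ᵥ P = 0) (h1 : Q' ⬝ᵥ P = 0) (r₁ t₁ r₂ t₂ : ℚ)
    (hrt : r₁ * t₂ ≠ r₂ * t₁)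
    (hS₁ : ∃ h ∈ H, tx (vecMulVec (castV P) (castV Q)) r₁ * tx (vecMulVec (castV P) (castV Q')) t₁ = qg h)
    (hS₂ : ∃ h ∈ H, tx (vecMulVec (castV P) (castV Q)) r₂ * tx (vecMulVec (castV P) (castV Q')) t₂ = qg h) :
    H.FiniteIndex := by
  have e0 : castV Q ⬝ᵥ castV P = 0 := by rw [castV_dot, h0, Int.cast_zero]
  have e1 : castV Q' ⬝ᵥ castV P = 0 := by rw [castV_dot, h1, Int.cast_zero]
  obtain ⟨z₁, hz₁, H₁⟩ := hS₁
  obtain ⟨z₂, hz₂, H₂⟩ := hS₂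
  rw [CYC_sum _ _ _ _ _ e0] at H₁ H₂
  set f₁ : Fin n → ℚ := r₁ • castV Q + t₁ • castV Q' with hf₁
  set f₂ : Fin n → ℚ := r₂ • castV Q + t₂ • castV Q' with hf₂
  have d₁ : f₁ ⬝ᵥ castV P = 0 := by
    rw [hf₁, add_dotProduct, smul_dotProduct, smul_dotProduct, e0, e1, smul_zero, smul_zero, add_zero]
  have d₂ : f₂ ⬝ᵥ castV P = 0 := by
    rw [hf₂, add_dotProduct, smul_dotProduct, smul_dotProduct, e0, e1, smul_zero, smul_zero, add_zero]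
  refine hFCQ n hn H hH z₁ hz₁ z₂ hz₂ (castV P) f₁ hP ?_ d₁ H₁.symm ?_ (Or.inr ?_)
  · intro hf
    obtain ⟨a, b⟩ := CYC_ratIndep hQ r₁ t₁ hf
    apply hrt
    rw [a, b, zero_mul, mul_zero]
  · rw [← H₂, add_mulVec, one_mulVec, dotProduct_add, d₁, zero_add]
    have : vecMulVec (castV P) f₂ *ᵥ castV P = (f₂ ⬝ᵥ castV P) • castV P := by
      funext i
      rw [mulVec, dotProduct, Pi.smul_apply, smul_eq_mul, dotProduct, Finset.sum_mul]
      refine Finset.sum_congr rfl fun k _ => ?_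
      rw [vecMulVec_apply]
      ring
    rw [this, d₂, zero_smul, dotProduct_zero]
  · intro k hk m hkm
    have a1 := CYC_pow (z := z₂) (CYC_mul0 d₂) H₂.symm k
    have a2 := CYC_zpow (z := z₁) (CYC_mul0 d₁) H₁.symm m
    rw [hkm, a2] at a1
    have a3 := add_left_cancel a1
    rw [← vecMulVec_smul, ← vecMulVec_smul] at a3
    have a4 := CYC_vmv hP a3
    have a5 : ((m : ℚ) * r₁ - (k : ℚ) * r₂) • castV Q + ((m : ℚ) * t₁ - (k : ℚ) * t₂) • castV Q' = 0 := by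
      rw [hf₁, hf₂] at a4
      have a6 := sub_eq_zero.mpr a4
      rw [← a6]
      funext i
      simp only [Pi.add_apply, Pi.sub_apply, Pi.smul_apply, smul_eq_mul]
      ring
    obtain ⟨b1, b2⟩ := CYC_ratIndep hQ _ _ a5
    have b3 : (k : ℚ) * (r₁ * t₂ - r₂ * t₁) = 0 := by linear_combination r₁ * (-b2) + t₁ * b1
    rcases mul_eq_zero.mp b3 with b4 | b4
    · have : k = 0 := by exact_mod_cast b4
      omega
    · exact hrt (sub_eq_zero.mp b4)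

/-- the flags of the walk -/
def CYC_X (P Q : ℕ → (Fin n → ℤ)) (t : ℕ) : MQ n := vecMulVec (castV (P (t / 2))) (castV (Q ((t + 1) / 2)))

theorem CYC_even (P Q : ℕ → (Fin n → ℤ)) (i : ℕ) :
    CYC_X P Q (2 * i) = vecMulVec (castV (P i)) (castV (Q i)) := by
  unfold CYC_X
  rw [show 2 * i / 2 = i by omega, show (2 * i + 1) / 2 = i by omega]

theorem CYC_odd (P Q : ℕ → (Fin n → ℤ)) (i : ℕ) :
    CYC_X P Q (2 * i + 1) = vecMulVec (castV (P i)) (castV (Q (i + 1))) := by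
  unfold CYC_X
  rw [show (2 * i + 1) / 2 = i by omega, show (2 * i + 1 + 1) / 2 = i + 1 by omega]

theorem CYC_trip (P Q : ℕ → (Fin n → ℤ))
    (h0 : ∀ i, Q i ⬝ᵥ P i = 0) (h1 : ∀ i, Q (i + 1) ⬝ᵥ P i = 0) (h2 : ∀ i, Q i ⬝ᵥ P (i + 1) ≠ 0)
    (h3 : ∀ i, Q (i + 2) ⬝ᵥ P i ≠ 0) (t : ℕ) :
    ∃ δ δ' : ℚ, Trip (CYC_X P Q t) (CYC_X P Q (t + 1)) (CYC_X P Q (t + 2)) δ δ' ∧ δ ≠ δ' := by
  have c0 : ∀ i, castV (Q i) ⬝ᵥ castV (P i) = 0 := fun i => by rw [castV_dot, h0, Int.cast_zero]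
  have c1 : ∀ i, castV (Q (i + 1)) ⬝ᵥ castV (P i) = 0 := fun i => by rw [castV_dot, h1, Int.cast_zero]
  obtain ⟨i, rfl | rfl⟩ : ∃ i, t = 2 * i ∨ t = 2 * i + 1 := ⟨t / 2, by omega⟩
  · rw [show 2 * i + 2 = 2 * (i + 1) by ring, CYC_even, CYC_odd, CYC_even]
    refine ⟨castV (Q i) ⬝ᵥ castV (P (i + 1)), 0, ⟨CYC_mul0 (c0 i), CYC_mul0 (c0 (i + 1)), CYC_mul0 (c1 i),
      CYC_mul0 (c0 i), CYC_mul0 (c1 i), CYC_mul0 (c1 i), CYC_mul0 (c0 (i + 1)), CYC_mul _ _ _ _, ?_⟩, ?_⟩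
    · rw [zero_smul, CYC_mul0 (c1 i)]
    · intro h
      rw [castV_dot] at h
      exact h2 i (by exact_mod_cast h)
  · rw [show 2 * i + 1 + 1 = 2 * (i + 1) by ring, show 2 * i + 1 + 2 = 2 * (i + 1) + 1 by ring, CYC_odd, CYC_even,
      CYC_odd]
    refine ⟨0, castV (Q (i + 2)) ⬝ᵥ castV (P i), ⟨CYC_mul0 (c1 i), CYC_mul0 (c1 (i + 1)), CYC_mul0 (c0 (i + 1)),
      CYC_mul0 (c0 (i + 1)), CYC_mul0 (c1 i), CYC_mul0 (c1 (i + 1)), CYC_mul0 (c0 (i + 1)), ?_,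
      CYC_mul _ _ _ _⟩, ?_⟩
    · rw [zero_smul, CYC_mul0 (c0 (i + 1))]
    · intro h
      rw [castV_dot] at h
      exact h3 i (by exact_mod_cast h.symm)

theorem CYC_elt (H : Subgroup (SLZ n)) (P Q : ℕ → (Fin n → ℤ))
    (hu : ∀ i, ∃ u ∈ H, ∃ a c e : ℚ, a ≠ 0 ∧ c ≠ 0 ∧ qg u = 1 + a • vecMulVec (castV (P i)) (castV (Q i)) +
      c • vecMulVec (castV (P (i + 1))) (castV (Q (i + 1))) +
      e • vecMulVec (castV (P i)) (castV (Q (i + 1))))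
    (hu' : ∀ i, ∃ u ∈ H, ∃ a c e : ℚ, a ≠ 0 ∧ c ≠ 0 ∧
      qg u = 1 + a • vecMulVec (castV (P i)) (castV (Q (i + 1))) +
      c • vecMulVec (castV (P (i + 1))) (castV (Q (i + 2))) +
      e • vecMulVec (castV (P (i + 1))) (castV (Q (i + 1)))) (t : ℕ) :
    ∃ a c e : ℚ, a ≠ 0 ∧ c ≠ 0 ∧
      (1 + a • CYC_X P Q t + c • CYC_X P Q (t + 2) + e • CYC_X P Q (t + 1)) ∈ {A : MQ n | ∃ h ∈ H, A = qg h} := by
  obtain ⟨i, rfl | rfl⟩ : ∃ i, t = 2 * i ∨ t = 2 * i + 1 := ⟨t / 2, by omega⟩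
  · rw [show 2 * i + 2 = 2 * (i + 1) by ring, CYC_even, CYC_odd, CYC_even]
    obtain ⟨u, huH, a, c, e, ha, hc, hq⟩ := hu i
    exact ⟨a, c, e, ha, hc, u, huH, hq.symm⟩
  · rw [show 2 * i + 1 + 1 = 2 * (i + 1) by ring, show 2 * i + 1 + 2 = 2 * (i + 1) + 1 by ring, CYC_odd, CYC_even,
      CYC_odd]
    obtain ⟨u, huH, a, c, e, ha, hc, hq⟩ := hu' i
    exact ⟨a, c, e, ha, hc, u, huH, hq.symm⟩

/-- the case of a walk which closes up at the start -/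
theorem CYC_closed (hFCQ : Pool.Agent.LV.FCQ_stmt) (hCLW : CLW_stmt) (hn : 3 ≤ n) (H : Subgroup (SLZ n))
    (hH : ZDense H) (P Q : ℕ → (Fin n → ℤ))
    (hP : ∀ i, Indep (P i) (P (i + 1))) (hQ : ∀ i, Indep (Q i) (Q (i + 1)))
    (h0 : ∀ i, Q i ⬝ᵥ P i = 0) (h1 : ∀ i, Q (i + 1) ⬝ᵥ P i = 0) (h2 : ∀ i, Q i ⬝ᵥ P (i + 1) ≠ 0)
    (h3 : ∀ i, Q (i + 2) ⬝ᵥ P i ≠ 0)
    (hu : ∀ i, ∃ u ∈ H, ∃ a c e : ℚ, a ≠ 0 ∧ c ≠ 0 ∧ qg u = 1 + a • vecMulVec (castV (P i)) (castV (Q i)) +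
      c • vecMulVec (castV (P (i + 1))) (castV (Q (i + 1))) +
      e • vecMulVec (castV (P i)) (castV (Q (i + 1))))
    (hu' : ∀ i, ∃ u ∈ H, ∃ a c e : ℚ, a ≠ 0 ∧ c ≠ 0 ∧
      qg u = 1 + a • vecMulVec (castV (P i)) (castV (Q (i + 1))) +
      c • vecMulVec (castV (P (i + 1))) (castV (Q (i + 2))) +
      e • vecMulVec (castV (P (i + 1))) (castV (Q (i + 1)))) (l : ℕ) (hl : 1 ≤ l)
    (hPl : P l = P 0) (hQl : Q l = Q 0) (hQl' : Q (l + 1) = Q 1) : H.FiniteIndex := by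
  choose δ δ' hT hδ using CYC_trip P Q h0 h1 h2 h3
  choose a c e ha hc hm using CYC_elt H P Q hu hu'
  obtain ⟨r₁, t₁, r₂, t₂, hrt, hS₁, hS₂⟩ := hCLW n _ (CYC_grp H) (CYC_X P Q) δ δ' a c e hT hδ ha hc hm (2 * l)
    (by omega) (by
      have e0 := CYC_even P Q 0
      rw [mul_zero] at e0
      rw [CYC_even, e0, hPl, hQl]) (by
      have e0 := CYC_odd P Q 0
      rw [mul_zero, zero_add] at e0
      rw [CYC_odd, e0, hPl, hQl'])
  have e0 := CYC_even P Q 0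
  rw [mul_zero] at e0
  have e1 := CYC_odd P Q 0
  rw [mul_zero, zero_add] at e1
  rw [e0, e1] at hS₁ hS₂
  exact CYC_last hFCQ hn H hH (P 0) (Q 0) (Q 1) (CYC_castV_ne (hP 0)) (hQ 0) (h0 0) (h1 0) r₁ t₁ r₂ t₂ hrt hS₁ hS₂

theorem CYC (hFCQ : Pool.Agent.LV.FCQ_stmt) (hCLW : CLW_stmt) : CYC_stmt := by
  intro n hn H hH P Q hfP hfQ hP hQ h0 h1 h2 h3 hu hu'
  have hfin : (Set.range fun i : ℕ => (P i, Q i, Q (i + 1))).Finite := by
    refine (hfP.prod (hfQ.prod hfQ)).subset ?_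
    rintro _ ⟨i, rfl⟩
    exact ⟨⟨i, rfl⟩, ⟨i, rfl⟩, ⟨i + 1, rfl⟩⟩
  obtain ⟨i, j, hij, heq⟩ : ∃ i j : ℕ, i < j ∧ (P i, Q i, Q (i + 1)) = (P j, Q j, Q (j + 1)) := by
    by_contra hc
    push Not at hc
    refine Set.infinite_range_of_injective (f := fun i : ℕ => (P i, Q i, Q (i + 1))) ?_ hfin
    intro i j hij
    rcases lt_trichotomy i j with h | h | h
    · exact absurd hij (hc i j h)
    · exact h
    · exact absurd hij.symm (hc j i h)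
  simp only [Prod.mk.injEq] at heq
  obtain ⟨a1, a2, a3⟩ := heq
  refine CYC_closed hFCQ hCLW hn H hH (fun k => P (i + k)) (fun k => Q (i + k)) (fun k => hP (i + k))
    (fun k => hQ (i + k)) (fun k => h0 (i + k)) (fun k => h1 (i + k)) (fun k => h2 (i + k))
    (fun k => h3 (i + k)) (fun k => hu (i + k)) (fun k => hu' (i + k)) (j - i) (by omega) ?_ ?_ ?_
  · show P (i + (j - i)) = P (i + 0)
    rw [show i + (j - i) = j by omega, add_zero, a1]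
  · show Q (i + (j - i)) = Q (i + 0)
    rw [show i + (j - i) = j by omega, add_zero, a2]
  · show Q (i + (j - i + 1)) = Q (i + 1)
    rw [show i + (j - i + 1) = j + 1 by omega, a3]

end Pool.Agent.FGN
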